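import Mathlib

/-!
# Project RT, module A2: `choose_mul_pow_le`
-/

set_option autoImplicit false

namespace Pool.Agent.Helper73.RT

/-- RT-A2. The union bound factor `C(M,T) p^T` is at most `(e M p / T)^T`. -/
theorem choose_mul_pow_le (M T : ℕ) (hT : 0 < T) (p : ℝ) (hp : 0 ≤ p) :
    (M.choose T : ℝ) * p ^ T ≤ (Real.exp 1 * M * p / T) ^ T := by
  have hT' : (0 : ℝ) < T := by exact_mod_cast hT
  have hfac : (0 : ℝ) < (T.factorial : ℝ) := by exact_mod_cast T.factorial_pos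
  have h1 : (M.choose T : ℝ) ≤ (M : ℝ) ^ T / (T.factorial : ℝ) := Nat.choose_le_pow_div T M
  have h2 : (T : ℝ) ^ T / (T.factorial : ℝ) ≤ Real.exp (T : ℝ) :=
    Real.pow_div_factorial_le_exp _ hT'.le T
  have hexp : Real.exp (T : ℝ) = Real.exp 1 ^ T := by
    rw [← Real.exp_nat_mul, mul_one]
  rw [hexp] at h2
  have hTT : (0 : ℝ) < (T : ℝ) ^ T := pow_pos hT' T
  have h3 : (1 : ℝ) / (T.factorial : ℝ) ≤ Real.exp 1 ^ T / (T : ℝ) ^ T := by
    rw [div_le_div_iff₀ hfac hTT]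
    rw [div_le_iff₀ hfac] at h2
    linarith
  calc (M.choose T : ℝ) * p ^ T ≤ ((M : ℝ) ^ T / (T.factorial : ℝ)) * p ^ T :=
        mul_le_mul_of_nonneg_right h1 (pow_nonneg hp T)
    _ = ((M : ℝ) ^ T * p ^ T) * (1 / (T.factorial : ℝ)) := by ring
    _ ≤ ((M : ℝ) ^ T * p ^ T) * (Real.exp 1 ^ T / (T : ℝ) ^ T) :=
        mul_le_mul_of_nonneg_left h3 (by positivity)
    _ = (Real.exp 1 * M * p / T) ^ T := by
        rw [div_pow, mul_pow, mul_pow]
        ring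

end Pool.Agent.Helper73.RT
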